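import Pool.Agent.H37.CNX.Stmts

/-!
# Denominators of conductors, board `cnx`, row XFI
-/

set_option autoImplicit false

namespace Pool.CND

open Finset Matrix

theorem xfi_thm (hXLO : S_XLO) (hUPA : S_UPA) (hNGL : S_NGL) : S_XFI := by
  intro p d k G _ _ _ _ M z hp hcp hp2 hd hX
  have hQ : 0 < p ^ d := pow_pos hp.pos d
  have hp3 : 3 ≤ p := by
    have := hp.two_le
    omega
  refine hNGL k G (p ^ d) hQ ?_ ?_
  · intro c hc
    have h1 := (hUPA p k G M d 1 hp hcp hX.ea hp.not_dvd_one (by rw [hX.card, mul_one]) c hc).1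
    rw [mul_one] at h1
    exact h1
  · intro N _ hdv
    obtain ⟨m0, hm0⟩ := hXLO p d k G M z hp hcp hp2 hd hX
    refine Set.infinite_of_injective_forall_mem
      (f := fun j : ℕ => (((p * (m0 + j) + 1 : ℕ) : ℚ) + 1 / (p ^ d : ℕ))) ?_ ?_
    · intro i j hij
      have h1 := add_right_cancel hij
      have h2 : p * (m0 + i) + 1 = p * (m0 + j) + 1 := by exact_mod_cast h1
      have h3 : p * (m0 + i) = p * (m0 + j) := by omega
      have h4 := Nat.eq_of_mul_eq_mul_left hp.pos h3
      omega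
    · intro j
      have hn1 : ¬ p ∣ p * (m0 + j) + 1 := by
        intro h
        have h1 := (Nat.dvd_add_right (Dvd.intro (m0 + j) rfl)).1 h
        have h2 := Nat.le_of_dvd (by norm_num) h1
        omega
      have hn2 : ¬ p ∣ p * (m0 + j) + 1 + 1 := by
        intro h
        rw [add_assoc] at h
        have h1 := (Nat.dvd_add_right (Dvd.intro (m0 + j) rfl)).1 h
        have h2 := Nat.le_of_dvd (by norm_num) h1
        omega
      refine ⟨hm0 _ ?_ hn1 hn2, ?_⟩
      · nlinarith
      · rintro ⟨y, hy⟩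
        apply hdv
        have e1 : ((p ^ d : ℕ) : ℚ) ≠ 0 := by
          rw [Nat.cast_ne_zero]
          exact hQ.ne'
        have h1 : (N : ℤ) = ((p ^ d : ℕ) : ℤ) * (y - N * (p * (m0 + j) + 1 : ℕ)) := by
          have h2 : (N : ℚ) = ((p ^ d : ℕ) : ℚ) * (y - N * ((p * (m0 + j) + 1 : ℕ) : ℚ)) := by
            rw [← hy, mul_add, add_sub_cancel_left, mul_one_div, mul_div_cancel₀ _ e1]
          exact_mod_cast h2
        have h3 : ((p ^ d : ℕ) : ℤ) ∣ (N : ℤ) := ⟨_, h1⟩
        exact_mod_cast h3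

end Pool.CND
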